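import Mathlib

/-!
# The space `C_k(ω*, ω*)` is not Čech-complete
-/

namespace Pool.Agent.Results.MP_7e6923_gt.NotCechComplete

open Set Filter Topology

/-- The space `ω*` of free ultrafilters on `ℕ`, a subspace of the space `Ultrafilter ℕ`
of all ultrafilters (which is the Stone–Čech compactification of `ℕ`). -/
abbrev OmegaStar : Type := {u : Ultrafilter ℕ // ∀ n : ℕ, ({n} : Set ℕ) ∉ u}

/-- Čech-completeness: `Z` is a `G_δ` set in its Stone–Čech compactification. -/
def IsCechComplete (Z : Type*) [TopologicalSpace Z] : Prop :=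
  IsGδ (range (stoneCechUnit : Z → StoneCech Z))

theorem isClosed_free : IsClosed {u : Ultrafilter ℕ | ∀ n : ℕ, ({n} : Set ℕ) ∉ u} := by
  have : {u : Ultrafilter ℕ | ∀ n : ℕ, ({n} : Set ℕ) ∉ u} =
      ⋂ n : ℕ, {u : Ultrafilter ℕ | ({n} : Set ℕ) ∈ u}ᶜ := by
    ext u
    simp
  rw [this]
  exact isClosed_iInter fun n => (ultrafilter_isOpen_basic _).isClosed_compl

instance : CompactSpace OmegaStar := isCompact_iff_compactSpace.1 isClosed_free.isCompact

/-- The basic clopen sets of `ω*`. -/
def star (A : Set ℕ) : Set OmegaStar := {u | A ∈ u.1}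

theorem isClopen_star (A : Set ℕ) : IsClopen (star A) :=
  ⟨(ultrafilter_isClosed_basic A).preimage continuous_subtype_val,
    (ultrafilter_isOpen_basic A).preimage continuous_subtype_val⟩

theorem finite_notMem (u : OmegaStar) {A : Set ℕ} (hA : A.Finite) : A ∉ u.1 := by
  intro h
  have : (⋃ n ∈ A, ({n} : Set ℕ)) ∈ u.1 := by
    rwa [biUnion_of_singleton]
  rw [Ultrafilter.finite_biUnion_mem_iff hA] at this
  obtain ⟨n, _, hn⟩ := this
  exact u.2 n hn

/-- Each infinite set belongs to a free ultrafilter. -/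
theorem exists_free {A : Set ℕ} (hA : A.Infinite) : ∃ u : OmegaStar, A ∈ u.1 := by
  have hne : (cofinite ⊓ 𝓟 A : Filter ℕ).NeBot := by
    rw [inf_principal_neBot_iff]
    intro U hU
    rw [mem_cofinite] at hU
    by_contra hcon
    rw [not_nonempty_iff_eq_empty] at hcon
    apply hA
    refine hU.subset fun x hx hxU => ?_
    have : x ∈ U ∩ A := ⟨hxU, hx⟩
    rw [hcon] at this
    exact this
  refine ⟨⟨Ultrafilter.of (cofinite ⊓ 𝓟 A), fun n hn => ?_⟩, ?_⟩
  · have h1 : ({n}ᶜ : Set ℕ) ∈ Ultrafilter.of (cofinite ⊓ 𝓟 A) := by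
      apply Ultrafilter.of_le
      exact mem_inf_of_left (by simp)
    exact (Ultrafilter.compl_mem_iff_notMem.1 h1) hn
  · exact Ultrafilter.of_le _ (mem_inf_of_right (mem_principal_self A))

/-- A `G_δ` set containing a point of `ω*` contains two distinct points. -/
theorem exists_two (p : OmegaStar) (U : ℕ → Set OmegaStar) (hU : ∀ n, IsOpen (U n))
    (hp : ∀ n, p ∈ U n) : ∃ a b : OmegaStar, a ≠ b ∧ ∀ n, a ∈ U n ∧ b ∈ U n := by
  -- basic sets
  have h1 : ∀ n, ∃ A : Set ℕ, A ∈ p.1 ∧ star A ⊆ U n := by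
    intro n
    obtain ⟨V, hV, hVU⟩ := isOpen_induced_iff.1 (hU n)
    have hpV : p.1 ∈ V := by
      have : p ∈ (Subtype.val ⁻¹' V : Set OmegaStar) := by
        rw [hVU]
        exact hp n
      exact this
    obtain ⟨B, ⟨A, rfl⟩, hpA, hAV⟩ :=
      ultrafilterBasis_is_basis.exists_subset_of_mem_open hpV hV
    refine ⟨A, hpA, fun q hq => ?_⟩
    rw [← hVU]
    exact hAV hq
  choose A hA hAU using h1
  -- decreasing intersections are infinite
  have hdec : ∀ n, (⋂ i ∈ Finset.range (n + 1), A i) ∈ p.1 := by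
    intro n
    rw [← Ultrafilter.mem_coe, biInter_finset_mem]
    exact fun i _ => hA i
  have hinf : ∀ n, (⋂ i ∈ Finset.range (n + 1), A i).Infinite := fun n hfin =>
    finite_notMem p hfin (hdec n)
  -- a strictly increasing pseudo-intersection
  have hstep : ∀ n m : ℕ, ∃ k, m < k ∧ k ∈ ⋂ i ∈ Finset.range (n + 1), A i := by
    intro n m
    obtain ⟨k, hk, hmk⟩ := (hinf n).exists_gt m
    exact ⟨k, hmk, hk⟩
  choose g hg1 hg2 using hstep
  let b : ℕ → ℕ := fun n => Nat.rec (g 0 0) (fun n r => g (n + 1) r) n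
  have hbsucc : ∀ n, b (n + 1) = g (n + 1) (b n) := fun _ => rfl
  have hbmono : StrictMono b := strictMono_nat_of_lt_succ fun n => by
    rw [hbsucc]
    exact hg1 _ _
  have hbA : ∀ n i, i ≤ n → b n ∈ A i := by
    intro n i hi
    have : b n ∈ ⋂ i ∈ Finset.range (n + 1), A i := by
      cases n with
      | zero => exact hg2 0 0
      | succ n => rw [hbsucc]; exact hg2 _ _
    rw [mem_iInter₂] at this
    exact this i (by simp; omega)
  -- the two halves
  have hkey : ∀ (h : ℕ → ℕ), StrictMono h → ∀ q : OmegaStar, range (b ∘ h) ∈ q.1 →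
      ∀ n, q ∈ U n := by
    intro h hh q hq n
    apply hAU n
    have hfin : (range (b ∘ h) \ A n).Finite := by
      refine ((Set.finite_lt_nat n).image (b ∘ h)).subset ?_
      rintro _ ⟨⟨i, rfl⟩, hi⟩
      refine ⟨i, ?_, rfl⟩
      by_contra hcon
      have hni : n ≤ i := not_lt.1 hcon
      exact hi (hbA (h i) n (hni.trans (hh.id_le i)))
    have h2 : (range (b ∘ h) \ A n)ᶜ ∈ q.1 :=
      Ultrafilter.compl_mem_iff_notMem.2 (finite_notMem q hfin)
    have h3 : range (b ∘ h) ∩ (range (b ∘ h) \ A n)ᶜ ∈ q.1 := q.1.inter_sets hq h2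
    refine mem_of_superset h3 ?_
    rintro x ⟨hx, hx'⟩
    by_contra hcon
    exact hx' ⟨hx, hcon⟩
  have he : StrictMono fun i : ℕ => 2 * i := fun i j h => by dsimp only; omega
  have ho : StrictMono fun i : ℕ => 2 * i + 1 := fun i j h => by dsimp only; omega
  obtain ⟨q1, hq1⟩ := exists_free (infinite_range_of_injective (hbmono.comp he).injective)
  obtain ⟨q2, hq2⟩ := exists_free (infinite_range_of_injective (hbmono.comp ho).injective)
  refine ⟨q1, q2, ?_, fun n => ⟨hkey _ he q1 hq1 n, hkey _ ho q2 hq2 n⟩⟩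
  rintro rfl
  have hempty : range (b ∘ fun i => 2 * i) ∩ range (b ∘ fun i => 2 * i + 1) = ∅ := by
    rw [eq_empty_iff_forall_notMem]
    rintro _ ⟨⟨i, rfl⟩, j, hj⟩
    have : 2 * j + 1 = 2 * i := hbmono.injective hj
    omega
  have := q1.1.inter_sets hq1 hq2
  rw [hempty] at this
  exact q1.1.empty_notMem this

/-- There are infinitely many clopen sets. -/
theorem infinite_star : (range star).Infinite := by
  -- the sets of multiples of powers of two
  have hinj : Function.Injective fun n : ℕ => star {k | 2 ^ n ∣ k} := by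
    intro m n hmn
    by_contra hne
    wlog hlt : m < n generalizing m n
    · exact this hmn.symm (Ne.symm hne) (by omega)
    have hinf : ({k | 2 ^ m ∣ k} \ {k | 2 ^ n ∣ k} : Set ℕ).Infinite := by
      have hinj' : Function.Injective fun i : ℕ => 2 ^ m * (2 * i + 1) := by
        intro i j hij
        have := Nat.eq_of_mul_eq_mul_left (pow_pos (by norm_num) m) hij
        omega
      refine (infinite_range_of_injective hinj').mono ?_
      rintro _ ⟨i, rfl⟩
      refine ⟨dvd_mul_right _ _, fun hdvd => ?_⟩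
      have h1 : 2 ^ m * 2 ∣ 2 ^ m * (2 * i + 1) := by
        refine dvd_trans ?_ (show 2 ^ n ∣ 2 ^ m * (2 * i + 1) from hdvd)
        rw [← pow_succ]
        exact pow_dvd_pow 2 hlt
      have h2 : 2 ∣ 2 * i + 1 := Nat.dvd_of_mul_dvd_mul_left (pow_pos (by norm_num) m) h1
      omega
    obtain ⟨q, hq⟩ := exists_free hinf
    have h1 : q ∈ star {k | 2 ^ m ∣ k} := mem_of_superset hq sdiff_subset
    have h2 : q ∉ star {k | 2 ^ n ∣ k} := by
      intro h
      have h3 := q.1.inter_sets hq h
      have h4 : ({k | 2 ^ m ∣ k} \ {k | 2 ^ n ∣ k} : Set ℕ) ∩ {k | 2 ^ n ∣ k} = ∅ := by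
        ext x
        simp
      rw [h4] at h3
      exact q.1.empty_notMem h3
    have hmn' : star {k | 2 ^ m ∣ k} = star {k | 2 ^ n ∣ k} := hmn
    rw [hmn'] at h1
    exact h2 h1
  exact (infinite_range_of_injective hinj).mono (by rintro _ ⟨n, rfl⟩; exact ⟨_, rfl⟩)

/-- The function space is Tychonoff. -/
theorem t35 : T35Space C(OmegaStar, OmegaStar) := by
  letI : UniformSpace OmegaStar := uniformSpaceOfCompactR1
  haveI : CompletelyRegularSpace C(OmegaStar, OmegaStar) :=
    CompletelyRegularSpace.of_exists_uniformSpace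
      ⟨ContinuousMap.compactConvergenceUniformSpace, rfl⟩
  exact {}

/-- Neighbourhoods of a constant map. -/
theorem nhd_const (p : OmegaStar) (N : Set C(OmegaStar, OmegaStar))
    (hN : N ∈ 𝓝 (ContinuousMap.const OmegaStar p)) :
    ∃ U : Set OmegaStar, IsOpen U ∧ p ∈ U ∧ {g : C(OmegaStar, OmegaStar) | ∀ x, g x ∈ U} ⊆ N := by
  rw [ContinuousMap.mem_nhds_iff] at hN
  obtain ⟨S, hSfin, hS, hSN⟩ := hN
  refine ⟨⋂ KU ∈ {KU ∈ S | KU.1.Nonempty}, KU.2, ?_, ?_, ?_⟩
  · refine (hSfin.subset (sep_subset _ _)).isOpen_biInter ?_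
    rintro ⟨K, U⟩ hKU
    exact (hS K U hKU.1).2.1
  · rw [mem_iInter₂]
    rintro ⟨K, U⟩ ⟨hKU, x, hx⟩
    exact (hS K U hKU).2.2 hx
  · intro g hg
    apply hSN
    intro K U hKU x hx
    have := hg x
    rw [mem_iInter₂] at this
    exact this (K, U) ⟨hKU, x, hx⟩

theorem result : ¬ IsCechComplete C(OmegaStar, OmegaStar) := by
  intro hG
  haveI := t35
  obtain ⟨p, -⟩ := exists_free (A := univ) infinite_univ
  obtain ⟨W, hWo, hW⟩ := isGδ_iff_eq_iInter_nat.1 hG
  -- shrink
  have hshrink : ∀ n, ∃ O : Set (StoneCech C(OmegaStar, OmegaStar)), IsOpen O ∧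
      stoneCechUnit (ContinuousMap.const OmegaStar p) ∈ O ∧ closure O ⊆ W n := by
    intro n
    have hmem : stoneCechUnit (ContinuousMap.const OmegaStar p) ∈ W n := by
      have : stoneCechUnit (ContinuousMap.const OmegaStar p) ∈ ⋂ n, W n := by
        rw [← hW]
        exact ⟨_, rfl⟩
      exact mem_iInter.1 this n
    obtain ⟨T, hT, hTc, hTW⟩ := exists_mem_nhds_isClosed_subset ((hWo n).mem_nhds hmem)
    refine ⟨interior T, isOpen_interior, mem_interior_iff_mem_nhds.2 hT, ?_⟩
    exact (closure_minimal interior_subset hTc).trans hTW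
  choose O hOo hO hOW using hshrink
  have hnb : ∀ n, ∃ U : Set OmegaStar, IsOpen U ∧ p ∈ U ∧
      {g : C(OmegaStar, OmegaStar) | ∀ x, g x ∈ U} ⊆ stoneCechUnit ⁻¹' (O n) := fun n =>
    nhd_const p _ (((hOo n).preimage continuous_stoneCechUnit).mem_nhds (hO n))
  choose U hUo hpU hUO using hnb
  obtain ⟨a, b, hab, habU⟩ := exists_two p U hUo hpU
  let F : Set C(OmegaStar, OmegaStar) := {g | ∀ x, g x = a ∨ g x = b}
  have hFclosed : IsClosed F := by
    have : F = ⋂ x, {g : C(OmegaStar, OmegaStar) | g x ∈ ({a, b} : Set OmegaStar)} := by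
      ext g
      simp [F]
    rw [this]
    refine isClosed_iInter fun x => ?_
    exact (Set.toFinite ({a, b} : Set OmegaStar)).isClosed.preimage
      (continuous_eval_const x)
  have hFO : ∀ n, stoneCechUnit '' F ⊆ O n := by
    rintro n _ ⟨g, hg, rfl⟩
    apply hUO n
    intro x
    rcases hg x with h | h
    · rw [h]; exact (habU n).1
    · rw [h]; exact (habU n).2
  have hcl : closure (stoneCechUnit '' F) ⊆ range (stoneCechUnit :
      C(OmegaStar, OmegaStar) → StoneCech C(OmegaStar, OmegaStar)) := by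
    rw [hW]
    exact subset_iInter fun n => (closure_mono (hFO n)).trans (hOW n)
  have hemb : IsEmbedding (stoneCechUnit :
      C(OmegaStar, OmegaStar) → StoneCech C(OmegaStar, OmegaStar)) := isEmbedding_stoneCechUnit
  have hFc : IsCompact F := by
    rw [hemb.isCompact_iff]
    have heq : stoneCechUnit '' F = closure (stoneCechUnit '' F) := by
      refine subset_antisymm subset_closure fun y hy => ?_
      obtain ⟨g, rfl⟩ := hcl hy
      refine ⟨g, ?_, rfl⟩
      rw [← hFclosed.closure_eq, hemb.closure_eq_preimage_closure_image]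
      exact hy
    rw [heq]
    exact isClosed_closure.isCompact
  -- `F` is discrete
  have hdisc : ∀ g ∈ F, ∃ V : Set C(OmegaStar, OmegaStar), IsOpen V ∧ g ∈ V ∧ V ∩ F ⊆ {g} := by
    intro g hg
    obtain ⟨u, v, hu, hv, hau, hbv, huv⟩ := t2_separation hab
    refine ⟨{h | MapsTo h (g ⁻¹' {a}) u} ∩ {h | MapsTo h (g ⁻¹' {b}) v}, ?_, ⟨?_, ?_⟩, ?_⟩
    · exact (ContinuousMap.isOpen_setOfPred_mapsTo
        ((isClosed_singleton.preimage g.continuous).isCompact) hu).inter
        (ContinuousMap.isOpen_setOfPred_mapsTo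
        ((isClosed_singleton.preimage g.continuous).isCompact) hv)
    · intro x hx
      rw [mem_preimage, mem_singleton_iff] at hx
      rw [hx]
      exact hau
    · intro x hx
      rw [mem_preimage, mem_singleton_iff] at hx
      rw [hx]
      exact hbv
    · rintro h ⟨⟨h1, h2⟩, hF⟩
      rw [mem_singleton_iff]
      ext1 x
      rcases hg x with hx | hx
      · rw [hx]
        rcases hF x with hy | hy
        · exact hy
        · exfalso
          have h3 : h x ∈ u := h1 hx
          rw [hy] at h3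
          exact (disjoint_left.1 huv) h3 hbv
      · rw [hx]
        rcases hF x with hy | hy
        · exfalso
          have h3 : h x ∈ v := h2 hx
          rw [hy] at h3
          exact (disjoint_left.1 huv) hau h3
        · exact hy
  have hFfin : F.Finite := by
    choose! V hVo hgV hVF using hdisc
    obtain ⟨t, ht, htF⟩ := hFc.elim_nhds_subcover V fun g hg => (hVo g hg).mem_nhds (hgV g hg)
    refine t.finite_toSet.subset fun g hg => ?_
    obtain ⟨g', hg', hgg'⟩ := mem_iUnion₂.1 (htF hg)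
    have := hVF g' (ht g' hg') ⟨hgg', hg⟩
    rw [mem_singleton_iff] at this
    rw [this]
    exact hg'
  -- but `F` is infinite
  classical
  have hmk : ∀ A : Set ℕ, ∃ g ∈ F, g ⁻¹' {a} = star A := by
    intro A
    have hcont : Continuous fun x : OmegaStar => if x ∈ star A then a else b := by
      refine continuous_const.if (fun x hx => ?_) continuous_const
      have : frontier {x | x ∈ star A} = ∅ := (isClopen_star A).frontier_eq
      rw [this] at hx
      exact absurd hx (notMem_empty _)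
    refine ⟨⟨_, hcont⟩, fun x => ?_, ?_⟩
    · by_cases hx : x ∈ star A
      · left; simp [hx]
      · right; simp [hx]
    · ext x
      by_cases hx : x ∈ star A
      · simp [hx]
      · simp [hx, hab.symm]
  have hsub : range star ⊆ (fun g : C(OmegaStar, OmegaStar) => g ⁻¹' {a}) '' F := by
    rintro _ ⟨A, rfl⟩
    obtain ⟨g, hg, hgA⟩ := hmk A
    exact ⟨g, hg, hgA⟩
  exact infinite_star ((hFfin.image _).subset hsub)

end Pool.Agent.Results.MP_7e6923_gt.NotCechComplete
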